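import Pool.Agent.Helper91.FS.Goals

/-! Packet FS-R1K (MP_0130f7_co). -/

set_option autoImplicit false

open Finset

namespace Pool.Agent.Helper71.FS

open Pool.Agent.Helper47.SR (Grp mv lev wt Ew W IsInv up dn StarAt HalfStarAt Goal_SYM)
open Pool.Agent.Helper49.NF
open Pool.Agent.Helper91.FS

variable {n : ℕ}

lemma r1k_W_le (G : Grp n) (F : Finset (Finset (Fin n))) : #F ≤ W G F := by
  unfold W
  calc #F = ∑ A ∈ F, 1 := by simp
    _ ≤ _ := Finset.sum_le_sum fun A _ => Nat.le_add_right _ _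

lemma r1k_Nn_zero (G : Grp n) (j s : ℕ) (h : ∀ A ∈ lev n j, 1 + wt G A ≤ s) :
    Nn G j (s + 1) = 0 := by
  unfold Nn
  refine Finset.sum_eq_zero fun A hA => ?_
  rw [mem_filter] at hA
  have := h A hA.1
  omega

lemma r1k_lb {G : Grp n} {j k E : ℕ} (h : AU G j k E) {F : Finset (Finset (Fin n))}
    (hF : F ⊆ lev n j) : k * #F ≤ W G F := by
  unfold W
  calc k * #F = ∑ A ∈ F, k := by simp [mul_comm]
    _ ≤ _ := Finset.sum_le_sum fun A hA => h.lb A (hF hA)

/-- PACKET R1K -/
theorem goal_R1K (hSBK : Goal_SBK) (hCLS : Pool.Agent.Helper49.NF.Goal_CLS)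
    (hSYM : Pool.Agent.Helper47.SR.Goal_SYM) : Goal_R1K := by
  intro n m s r z k k' E E' G hm hmn hs hmz hzn hmr hw1 hw2 hA hA' hkk hE hEE c3 c4
  refine hSYM n G m ?_
  intro S Y hS hY hSi hYi hhalf hlt
  change Sat G m S Y
  have hFam : Fam G m S Y := ⟨hS, hY, hSi, hYi, hlt⟩
  have hYc : #Y ≤ (n - r).choose m := by
    have h1 : k * #Y ≤ W G Y := r1k_lb hA hY
    have h2 := hA.ex
    have h3 := hA.k1
    have h4 : k * (2 * #Y) ≤ k * (n.choose m + E) := by
      have : E ≤ k * E := Nat.le_mul_of_pos_left _ h3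
      nlinarith
    have h5 := le_of_mul_le_mul_left h4 h3
    omega
  by_cases hcase : z.choose m ≤ W G Y
  · refine hSBK n m (n - r) k k' E E' G S Y hm hmn (by omega) (Nat.sub_le _ _) hFam hYc hA hA'
      hkk ?_
    have h1 : n - (n - r) = r := by omega
    rw [h1]
    refine hEE.trans ?_
    calc r * z.choose m ≤ r * W G Y := Nat.mul_le_mul_left _ hcase
      _ ≤ k' * (r * W G Y) := Nat.le_mul_of_pos_left _ hA'.k1
      _ = k' * r * W G Y := by ring
  · have h1 : W G Y < z.choose m := not_le.1 hcase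
    have e1 : Nn G m (s + 1) = 0 := r1k_Nn_zero G m s hw1
    have e2 : Nn G (m + 1) (s + 1) = 0 := r1k_Nn_zero G (m + 1) s hw2
    have hYW := r1k_W_le G Y
    refine hCLS n m s (z - m) m G S Y hm hmn hs hFam ?_ ?_ ?_ ?_ ?_ ?_
    · have h2 : n - m + m = n := by omega
      rw [h2, Nat.choose_symm (by omega)]
      calc #S ≤ #(lev n m) := card_le_card hS
        _ = n.choose m := by rw [card_powersetCard, card_univ, Fintype.card_fin]
    · have h2 : m + (z - m) = z := by omega
      rw [h2]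
      omega
    · rw [e1]
      exact Nat.zero_le _
    · rw [e2]
      exact Nat.zero_le _
    · have h2 : s * (z - m) ≤ s * z := Nat.mul_le_mul_left _ (Nat.sub_le _ _)
      calc 64 * (s * (m + 1) * (s * (z - m))) + s * (m + 1) * (m + 1)
          ≤ 64 * (s * (m + 1) * (s * z)) + s * (m + 1) * (m + 1) :=
            Nat.add_le_add_right (Nat.mul_le_mul_left _ (Nat.mul_le_mul_left _ h2)) _
        _ = (64 * s ^ 2 * z + s * (m + 1)) * (m + 1) := by ring
        _ ≤ (63 * (n - m)) * (m + 1) := Nat.mul_le_mul_right _ c3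
        _ = 63 * ((n - m) * (m + 1)) := by ring
    · calc 65 * (s * (m + 1) * (m + 1)) = (65 * (s * (m + 1))) * (m + 1) := by ring
        _ ≤ (63 * (n - m)) * (m + 1) := Nat.mul_le_mul_right _ c4
        _ = 63 * ((n - m) * (m + 1)) := by ring

end Pool.Agent.Helper71.FS
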